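import Pool.Agent.K1H34.HYC.Stm

/-!
# HYC-HITS: one part is coloured by the local lemma
-/

set_option autoImplicit false
open Classical Finset

namespace Pool.Agent.K1H8.HYC

open Pool.Agent.K1H34.HYC

theorem sum_biUnion_le' {ι β : Type} [DecidableEq β] (S : Finset ι) (t : ι → Finset β) (g : β → ℝ)
    (hg : ∀ b, 0 ≤ g b) : ∑ b ∈ S.biUnion t, g b ≤ ∑ i ∈ S, ∑ b ∈ t i, g b := by
  induction S using Finset.induction_on with
  | empty => simp
  | insert a S ha ih =>
    rw [Finset.biUnion_insert, Finset.sum_insert ha]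
    have h1 : ∑ b ∈ t a ∪ S.biUnion t, g b ≤ ∑ b ∈ t a, g b + ∑ b ∈ S.biUnion t, g b := by
      rw [← Finset.sum_union_inter]
      have : 0 ≤ ∑ b ∈ t a ∩ S.biUnion t, g b := Finset.sum_nonneg (fun b _ => hg b)
      linarith
    linarith

theorem sum_union_le' {β : Type} [DecidableEq β] (S T : Finset β) (g : β → ℝ)
    (hg : ∀ b, 0 ≤ g b) : ∑ b ∈ S ∪ T, g b ≤ ∑ b ∈ S, g b + ∑ b ∈ T, g b := by
  rw [← Finset.sum_union_inter]
  have : 0 ≤ ∑ b ∈ S ∩ T, g b := Finset.sum_nonneg (fun b _ => hg b)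
  linarith

theorem t_HITS : S_TUP → S_GLLL → S_HITS := by
  intro hTUP hGLLL X O _ _ Γ A L s d P r h64 hL hd h32 hr h12 hrow
  have hs : (0 : ℝ) < s := by
    have : 0 < s := by omega
    exact_mod_cast this
  -- the embedding
  obtain ⟨e, heL, hei⟩ : ∃ e : X → Fin s → ℕ, (∀ x ∈ A, ∀ t, e x t ∈ L x) ∧
      ∀ x, Function.Injective (e x) := by
    refine ⟨fun x => if h : x ∈ A then (fun t => (L x).orderEmbOfCardLe (hL x h) t)
      else (fun t => t.val), ?_, ?_⟩
    · intro x hx t
      simp only [hx, dif_pos]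
      exact Finset.orderEmbOfCardLe_mem _ _ _
    · intro x
      by_cases hx : x ∈ A
      · simp only [hx, dif_pos]
        exact ((L x).orderEmbOfCardLe (hL x hx)).injective
      · simp only [hx, dif_neg, not_false_eq_true]
        exact Fin.val_injective
  set P' : O → Finset (X × Fin s) := fun o =>
    univ.filter (fun z => z.1 ∈ A ∧ (z.1, e z.1 z.2) ∈ P o) with hP'
  have hmP' : ∀ o z, z ∈ P' o ↔ z.1 ∈ A ∧ (z.1, e z.1 z.2) ∈ P o := by
    intro o z
    simp [hP']
  have hinj : Function.Injective (fun z : X × Fin s => (z.1, e z.1 z.2)) := by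
    rintro ⟨x, t⟩ ⟨y, t'⟩ h
    simp only [Prod.mk.injEq] at h
    obtain ⟨h1, h2⟩ := h
    subst h1
    rw [hei x h2]
  have hcardP' : ∀ o, (P' o).card ≤ ((P o).filter (fun z => z.1 ∈ A)).card := by
    intro o
    apply Finset.card_le_card_of_injOn (fun z : X × Fin s => (z.1, e z.1 z.2))
    · intro z hz
      have := (hmP' o z).1 hz
      simp only [Finset.coe_filter, Set.mem_ofPred_eq]
      exact ⟨this.2, this.1⟩
    · exact hinj.injOn
  have hcardQ : ∀ o x, ((P' o).filter (fun z => z.1 = x)).card ≤ row (P o) x := by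
    intro o x
    apply Finset.card_le_card_of_injOn (fun z : X × Fin s => (z.1, e z.1 z.2))
    · intro z hz
      rw [Finset.mem_coe, Finset.mem_filter] at hz
      have := (hmP' o z).1 hz.1
      simp only [Finset.coe_filter, Set.mem_ofPred_eq]
      exact ⟨this.2, hz.2⟩
    · exact hinj.injOn
  set T1 : Finset (Finset (X × Fin s)) :=
    (univ : Finset O).biUnion (fun o => (P' o).powersetCard (r o + 1)) with hT1
  set T2 : Finset (Finset (X × Fin s)) :=
    ((univ : Finset ((X × Fin s) × (X × Fin s))).filter (fun p => p.1.1 ∈ A ∧ p.2.1 ∈ A ∧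
      Γ.Adj p.1.1 p.2.1 ∧ e p.1.1 p.1.2 = e p.2.1 p.2.2)).image (fun p => {p.1, p.2}) with hT2
  have hmT1 : ∀ τ, τ ∈ T1 ↔ ∃ o, τ ⊆ P' o ∧ τ.card = r o + 1 := by
    intro τ
    simp [hT1, Finset.mem_powersetCard]
  have hmT2 : ∀ τ, τ ∈ T2 ↔ ∃ p q : X × Fin s, p.1 ∈ A ∧ q.1 ∈ A ∧ Γ.Adj p.1 q.1 ∧
      e p.1 p.2 = e q.1 q.2 ∧ ({p, q} : Finset (X × Fin s)) = τ := by
    intro τ
    rw [hT2, Finset.mem_image]
    constructor
    · rintro ⟨⟨p, q⟩, h1, h2⟩
      rw [Finset.mem_filter] at h1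
      exact ⟨p, q, h1.2.1, h1.2.2.1, h1.2.2.2.1, h1.2.2.2.2, h2⟩
    · rintro ⟨p, q, h1, h2, h3, h4, h5⟩
      exact ⟨(p, q), by rw [Finset.mem_filter]; exact ⟨Finset.mem_univ _, h1, h2, h3, h4⟩, h5⟩
  have hA : ∀ τ ∈ T1 ∪ T2, ∀ z ∈ τ, z.1 ∈ A := by
    intro τ hτ z hz
    rw [Finset.mem_union, hmT1, hmT2] at hτ
    rcases hτ with ⟨o, h1, _⟩ | ⟨p, q, h1, h2, _, _, h5⟩
    · exact ((hmP' o z).1 (h1 hz)).1
    · rw [← h5] at hz
      simp only [Finset.mem_insert, Finset.mem_singleton] at hz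
      rcases hz with hz | hz
      · rw [hz]; exact h1
      · rw [hz]; exact h2
  have hne : ∀ τ ∈ T1 ∪ T2, τ.Nonempty := by
    intro τ hτ
    rw [Finset.mem_union, hmT1, hmT2] at hτ
    rcases hτ with ⟨o, _, h1⟩ | ⟨p, q, h1, h2, _, _, h5⟩
    · rw [← Finset.card_pos]; omega
    · rw [← h5]; exact ⟨p, by simp⟩
  set u : ℝ := 1 / ((1 - 1 / 2) * (s : ℝ)) with hu
  have hu' : u = 2 / s := by
    rw [hu]; field_simp; norm_num
  have hu0 : 0 ≤ u := by rw [hu']; positivity
  have hpow : ∀ τ : Finset (X × Fin s), 0 ≤ u ^ τ.card := fun τ => pow_nonneg hu0 _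
  -- weight of T1
  have hW1 : ∀ x ∈ A, ∑ τ ∈ T1.filter (fun τ => ∃ z ∈ τ, z.1 = x), u ^ τ.card ≤ 1 / 8 := by
    intro x hx
    have h1 : T1.filter (fun τ => ∃ z ∈ τ, z.1 = x) =
        (univ : Finset O).biUnion (fun o => ((P' o).powersetCard (r o + 1)).filter
          (fun τ => ∃ z ∈ τ, z.1 = x)) := by
      rw [hT1, Finset.filter_biUnion]
    rw [h1]
    refine (sum_biUnion_le' _ _ _ hpow).trans ?_
    have h2 : ∀ o ∈ (univ : Finset O),
        ∑ τ ∈ ((P' o).powersetCard (r o + 1)).filter (fun τ => ∃ z ∈ τ, z.1 = x), u ^ τ.card ≤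
          u * ((row (P o) x : ℝ) * (1 / 2) ^ (r o)) := by
      intro o _
      have h3 : ((P' o).powersetCard (r o + 1)).filter (fun τ => ∃ z ∈ τ, z.1 = x) =
          ((P' o).powersetCard (r o + 1)).filter
            (fun τ => ∃ z ∈ τ, z ∈ (P' o).filter (fun z => z.1 = x)) := by
        apply Finset.filter_congr
        intro τ hτ
        rw [Finset.mem_powersetCard] at hτ
        constructor
        · rintro ⟨z, hz, hzx⟩
          exact ⟨z, hz, Finset.mem_filter.2 ⟨hτ.1 hz, hzx⟩⟩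
        · rintro ⟨z, hz, hzx⟩
          exact ⟨z, hz, (Finset.mem_filter.1 hzx).2⟩
      rw [h3]
      have h4 := hTUP (X × Fin s) (P' o) ((P' o).filter (fun z => z.1 = x)) (r o) u (hr o) hu0
        (Finset.filter_subset _ _) (by
          have h5 : 12 * (P' o).card ≤ s * r o :=
            le_trans (Nat.mul_le_mul_left _ (hcardP' o)) (h12 o)
          have h6 : (12 : ℝ) * ((P' o).card : ℝ) ≤ s * r o := by exact_mod_cast h5
          rw [hu']
          have h7 : 6 * ((P' o).card : ℝ) * (2 / s) = (12 * ((P' o).card : ℝ)) / s := by ring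
          rw [h7, div_le_iff₀ hs]
          linarith)
      have h4' : ∑ τ ∈ ((P' o).powersetCard (r o + 1)).filter
            (fun τ => ∃ z ∈ τ, z ∈ (P' o).filter (fun z => z.1 = x)), u ^ τ.card ≤
          (((P' o).filter (fun z => z.1 = x)).card : ℝ) * u * (1 / 2) ^ (r o) := by
        convert h4
      refine h4'.trans ?_
      have h8 : (((P' o).filter (fun z => z.1 = x)).card : ℝ) ≤ row (P o) x := by
        exact_mod_cast hcardQ o x
      have h9 : (0 : ℝ) ≤ (1 / 2) ^ (r o) := by positivity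
      calc (((P' o).filter (fun z => z.1 = x)).card : ℝ) * u * (1 / 2) ^ (r o)
          ≤ (row (P o) x : ℝ) * u * (1 / 2) ^ (r o) := by gcongr
        _ = u * ((row (P o) x : ℝ) * (1 / 2) ^ (r o)) := by ring
    refine (Finset.sum_le_sum h2).trans ?_
    rw [← Finset.mul_sum]
    have h10 := hrow x hx
    calc u * ∑ o, (row (P o) x : ℝ) * (1 / 2) ^ (r o) ≤ u * (s / 16) := by gcongr
      _ = 1 / 8 := by rw [hu']; field_simp; norm_num
  -- weight of T2
  have hW2 : ∀ x ∈ A, ∑ τ ∈ T2.filter (fun τ => ∃ z ∈ τ, z.1 = x), u ^ τ.card ≤ 1 / 8 := by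
    intro x hx
    have : Nonempty (Fin s) := ⟨⟨0, by omega⟩⟩
    set g : X × Fin s → Finset (X × Fin s) :=
      fun q => {(x, q.2), (q.1, Function.invFun (e q.1) (e x q.2))} with hg
    have key : ∀ (p q : X × Fin s), p.1 = x → q.1 ∈ A → Γ.Adj p.1 q.1 → e p.1 p.2 = e q.1 q.2 →
        ({p, q} : Finset (X × Fin s)) ∈
          ((A.filter (fun y => Γ.Adj x y)) ×ˢ (univ : Finset (Fin s))).image g := by
      rintro ⟨p1, p2⟩ ⟨q1, q2⟩ h1 h2 h3 h4
      simp only at h1 h2 h3 h4
      subst h1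
      rw [Finset.mem_image]
      refine ⟨(q1, p2), ?_, ?_⟩
      · simp only [Finset.mem_product, Finset.mem_filter, Finset.mem_univ, and_true]
        exact ⟨h2, h3⟩
      · simp only [hg]
        rw [h4, Function.leftInverse_invFun (hei q1) q2]
    have hsub : T2.filter (fun τ => ∃ z ∈ τ, z.1 = x) ⊆
        ((A.filter (fun y => Γ.Adj x y)) ×ˢ (univ : Finset (Fin s))).image g := by
      intro τ hτ
      rw [Finset.mem_filter, hmT2] at hτ
      obtain ⟨⟨p, q, h1, h2, h3, h4, h5⟩, z, hz, hzx⟩ := hτ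
      rw [← h5] at hz
      simp only [Finset.mem_insert, Finset.mem_singleton] at hz
      rcases hz with hz | hz
      · rw [hz] at hzx
        rw [← h5]
        exact key p q hzx h2 h3 h4
      · rw [hz] at hzx
        rw [← h5, Finset.pair_comm]
        exact key q p hzx h1 h3.symm h4.symm
    have hcard2 : ∀ τ ∈ T2.filter (fun τ => ∃ z ∈ τ, z.1 = x), u ^ τ.card = u ^ 2 := by
      intro τ hτ
      rw [Finset.mem_filter, hmT2] at hτ
      obtain ⟨⟨p, q, h1, h2, h3, h4, h5⟩, _⟩ := hτ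
      have hpq : p ≠ q := by
        intro h
        rw [h] at h3
        exact Γ.loopless.irrefl _ h3
      rw [← h5, Finset.card_pair hpq]
    rw [Finset.sum_congr rfl hcard2, Finset.sum_const, nsmul_eq_mul]
    have hc : (T2.filter (fun τ => ∃ z ∈ τ, z.1 = x)).card ≤ d * s := by
      refine (Finset.card_le_card hsub).trans ?_
      refine Finset.card_image_le.trans ?_
      rw [Finset.card_product, Finset.card_univ, Fintype.card_fin]
      exact Nat.mul_le_mul_right _ (hd x hx)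
    have hc' : ((T2.filter (fun τ => ∃ z ∈ τ, z.1 = x)).card : ℝ) ≤ d * s := by exact_mod_cast hc
    have h32' : (32 : ℝ) * d ≤ s := by exact_mod_cast h32
    have e1 : ((T2.filter (fun τ => ∃ z ∈ τ, z.1 = x)).card : ℝ) * u ^ 2 ≤
        ((d : ℝ) * (s : ℝ)) * u ^ 2 := mul_le_mul_of_nonneg_right hc' (by positivity)
    have e2 : ((d : ℝ) * (s : ℝ)) * u ^ 2 = (4 * (d : ℝ)) / (s : ℝ) := by
      rw [hu']; field_simp; norm_num
    have e3 : (4 * (d : ℝ)) / (s : ℝ) ≤ 1 / 8 := by
      rw [div_le_div_iff₀ hs (by norm_num)]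
      linarith
    linarith
  obtain ⟨ω, hω, -⟩ := hGLLL X (Fin 0) s (1 / 2) (T1 ∪ T2) (fun j => j.elim0) (fun j => j.elim0)
    (fun j => j.elim0) (by omega) (by norm_num) le_rfl (fun j => j.elim0) (fun j => j.elim0) hne
    (fun j => j.elim0) (by
      intro x
      have hz : ∑ j ∈ (univ : Finset (Fin 0)).filter
          (fun j => x ∈ (fun j : Fin 0 => (j.elim0 : Finset X)) j),
          (fun j : Fin 0 => (j.elim0 : ℝ)) j = 0 := by
        apply Finset.sum_eq_zero
        intro j _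
        exact j.elim0
      by_cases hx : x ∈ A
      · have h1 : ∑ τ ∈ (T1 ∪ T2).filter (fun τ => ∃ z ∈ τ, z.1 = x), u ^ τ.card ≤ 1 / 4 := by
          rw [Finset.filter_union]
          refine (sum_union_le' _ _ _ hpow).trans ?_
          have := hW1 x hx
          have := hW2 x hx
          linarith
        have h2 := hz
        simp only [Finset.univ_eq_empty, Finset.filter_empty, Finset.sum_empty, add_zero] at h2 ⊢
        exact h1.trans (by norm_num)
      · have h1 : (T1 ∪ T2).filter (fun τ => ∃ z ∈ τ, z.1 = x) = ∅ := by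
          rw [Finset.filter_eq_empty_iff]
          rintro τ hτ ⟨z, hz1, hz2⟩
          exact hx (hz2 ▸ hA τ hτ z hz1)
        rw [h1]
        simp)
  refine ⟨fun x => e x (ω x), fun x hx => heL x hx _, ?_, ?_⟩
  · intro x hx y hy hxy h
    refine hω {(x, ω x), (y, ω y)} ?_ ?_
    · rw [Finset.mem_union, hmT2]
      exact Or.inr ⟨(x, ω x), (y, ω y), hx, hy, hxy, h, rfl⟩
    · intro z hz
      simp only [Finset.mem_insert, Finset.mem_singleton] at hz
      rcases hz with hz | hz <;> rw [hz]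
  · intro o
    by_contra hcon
    push Not at hcon
    obtain ⟨B, hB, hBc⟩ := Finset.exists_subset_card_eq (s := A.filter
      (fun x => (x, e x (ω x)) ∈ P o)) (n := r o + 1) (by
        unfold hits at hcon
        exact hcon)
    refine hω (B.image (fun x => (x, ω x))) ?_ ?_
    · rw [Finset.mem_union, hmT1]
      refine Or.inl ⟨o, ?_, ?_⟩
      · intro z hz
        rw [Finset.mem_image] at hz
        obtain ⟨x, hx, rfl⟩ := hz
        have := hB hx
        rw [Finset.mem_filter] at this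
        rw [hmP']
        exact this
      · rw [Finset.card_image_of_injective, hBc]
        intro a b hab
        simp only [Prod.mk.injEq] at hab
        exact hab.1
    · intro z hz
      rw [Finset.mem_image] at hz
      obtain ⟨x, hx, rfl⟩ := hz
      rfl

end Pool.Agent.K1H8.HYC
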